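import Pool.Agent.SGD.Stmts

/-!
# SGD, row GNZ: a point on no line through two of the points
-/

set_option autoImplicit false

namespace Pool.Agent.SGD.H70

open Pool.Agent.SGE Pool.Agent.SGP Pool.Agent.SGY Polynomial

theorem quad_fin (a b c : ℝ) (h : a ≠ 0 ∨ b ≠ 0) : {t : ℝ | a * t ^ 2 + b * t + c = 0}.Finite := by
  have hP : (C a * X ^ 2 + C b * X + C c : ℝ[X]) ≠ 0 := by
    intro h0
    rcases h with h | h
    · have h1 := congrArg (fun P : ℝ[X] => P.coeff 2) h0
      simp at h1
      exact h h1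
    · have h1 := congrArg (fun P : ℝ[X] => P.coeff 1) h0
      simp [coeff_C, coeff_X_pow] at h1
      exact h h1
  refine (C a * X ^ 2 + C b * X + C c : ℝ[X]).roots.toFinset.finite_toSet.subset ?_
  intro t ht
  rw [Finset.mem_coe, Multiset.mem_toFinset, mem_roots hP, IsRoot.def]
  have ht' : a * t ^ 2 + b * t + c = 0 := ht
  simpa using ht'

theorem gnz : GnzStmt := by
  intro V _ f hf
  have hfin : (⋃ p : V × V, {t : ℝ | p.1 ≠ p.2 ∧ o (f p.1) (f p.2) (t, t ^ 2) = 0}).Finite := by
    refine Set.finite_iUnion fun p => ?_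
    by_cases hp : p.1 = p.2
    · refine Set.finite_empty.subset ?_
      rintro t ⟨h, -⟩
      exact (h hp).elim
    · have hne : (f p.2).1 - (f p.1).1 ≠ 0 ∨ -((f p.2).2 - (f p.1).2) ≠ 0 := by
        by_contra hc
        rw [not_or, not_not, not_not, neg_eq_zero] at hc
        apply hp
        apply hf
        ext
        · linarith [hc.1]
        · linarith [hc.2]
      refine (quad_fin _ _ (-((f p.2).1 - (f p.1).1) * (f p.1).2 +
        ((f p.2).2 - (f p.1).2) * (f p.1).1) hne).subset ?_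
      rintro t ⟨-, ht⟩
      have ht' : ((f p.2).1 - (f p.1).1) * (t ^ 2 - (f p.1).2) -
        ((f p.2).2 - (f p.1).2) * (t - (f p.1).1) = 0 := ht
      show _ = _
      linarith
  obtain ⟨t, ht⟩ := hfin.exists_notMem
  refine ⟨(t, t ^ 2), fun x y hxy h => ht ?_⟩
  exact Set.mem_iUnion.2 ⟨(x, y), hxy, h⟩

end Pool.Agent.SGD.H70
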