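import Pool.Agent.SGD.Stmts
import Pool.Agent.Helper56_SGP.CTR

/-!
# SGD, row SUB: a chain of consecutive pairs is a contiguous part
-/

set_option autoImplicit false

namespace Pool.Agent.SGD.H70

open Pool.Agent.SGE Pool.Agent.SGP Pool.Agent.SGY

theorem sub : SubStmt := by
  intro V C hC x y L
  induction L generalizing x y with
  | nil =>
    intro h
    rw [List.isChain_cons_cons] at h
    obtain ⟨⟨P, Q, h1⟩, -⟩ := h
    exact ⟨P, Q, by rw [h1]; simp⟩
  | cons z L ih =>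
    intro h
    rw [List.isChain_cons_cons] at h
    obtain ⟨⟨P₁, Q₁, h1⟩, h2⟩ := h
    obtain ⟨P, Q, h3⟩ := ih y z h2
    have h5 : C = (P₁ ++ [x]) ++ y :: Q₁ := by rw [h1]; simp
    have h6 : C = P ++ y :: (z :: L ++ Q) := by rw [h3]; simp
    have h7 : (P₁ ++ [x]) ++ y :: Q₁ = P ++ y :: (z :: L ++ Q) := h5.symm.trans h6
    obtain ⟨h8, -⟩ := Pool.Agent.SGP.H56.uniq_split (h5 ▸ hC) h7
    exact ⟨P₁, Q, by rw [h6, ← h8]; simp⟩

end Pool.Agent.SGD.H70
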